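import Pool.Agent.helper51.QW.Spec

/-! # Project QW (MP_ad8ced_nt), row QWM: the first moment -/

set_option autoImplicit false

namespace Pool.Agent.PT

open Finset Pool.Agent.helper71.AA

/-- telescoping over the blocks -/
private theorem QWM_tel (F : Finset ℕ) (f : ℕ → ℝ) (q : ℕ → ℝ) (hq : ∀ j, q (j + 1) ≤ q j) (A E : ℝ)
    (h0 : ∀ p ∈ F, (p : ℝ) ≤ q 0) : ∀ J : ℕ,
    (∀ j < J, A * ((F.filter (fun p : ℕ => q (j + 1) < p ∧ (p : ℝ) ≤ q j)).card : ℝ) - E ≤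
      ∑ p ∈ F.filter (fun p : ℕ => q (j + 1) < p ∧ (p : ℝ) ≤ q j), f p) →
    A * ((F.filter (fun p : ℕ => q J < p)).card : ℝ) - J * E ≤ ∑ p ∈ F.filter (fun p : ℕ => q J < p), f p := by
  intro J
  induction J with
  | zero =>
    intro _
    have h1 : F.filter (fun p : ℕ => q 0 < p) = ∅ := by
      rw [Finset.filter_eq_empty_iff]
      intro p hp
      exact not_lt.2 (h0 p hp)
    rw [h1]
    simp
  | succ J ih =>
    intro h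
    have h1 := ih (fun j hj => h j (by omega))
    have h2 := h J (by omega)
    have h3 : F.filter (fun p : ℕ => q (J + 1) < p) = F.filter (fun p : ℕ => q J < p) ∪
        F.filter (fun p : ℕ => q (J + 1) < p ∧ (p : ℝ) ≤ q J) := by
      ext p
      simp only [mem_filter, mem_union]
      constructor
      · rintro ⟨a, b⟩
        rcases lt_or_ge (q J) p with c | c
        · exact Or.inl ⟨a, c⟩
        · exact Or.inr ⟨a, b, c⟩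
      · rintro (⟨a, b⟩ | ⟨a, b, c⟩)
        · exact ⟨a, lt_of_le_of_lt (hq J) b⟩
        · exact ⟨a, b⟩
    have h4 : Disjoint (F.filter (fun p : ℕ => q J < p))
        (F.filter (fun p : ℕ => q (J + 1) < p ∧ (p : ℝ) ≤ q J)) := by
      rw [Finset.disjoint_left]
      intro p hp hp'
      exact absurd (mem_filter.1 hp').2.2 (not_le.2 (mem_filter.1 hp).2)
    rw [h3, Finset.card_union_of_disjoint h4, Finset.sum_union h4]
    push_cast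
    linarith

/-- Chebyshev -/
private theorem QWM_pi (q : ℝ) (hq : 1 < q) (S : Finset ℕ) (hS : ∀ p ∈ S, p.Prime ∧ (p : ℝ) ≤ q) :
    (S.card : ℝ) ≤ 7 * (q / Real.log q) := by
  have hlogQ : 0 < Real.log q := Real.log_pos hq
  have h1 := Chebyshev.pi_le_log4_mul_div hq
  have h2 : S.card ≤ Nat.primeCounting ⌊q⌋₊ := by
    rw [← Nat.primesLE_card_eq_primeCounting]
    refine card_le_card ?_
    intro p hp
    exact Nat.mem_primesLE.mpr ⟨Nat.le_floor (hS p hp).2, (hS p hp).1⟩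
  have h3 : (S.card : ℝ) ≤ Real.log 4 * q / Real.log √q + √q := le_trans (by exact_mod_cast h2) h1
  have h4 : Real.log √q = Real.log q / 2 := Real.log_sqrt (by linarith)
  rw [h4] at h3
  have h5 : Real.log 4 < 1.4 := by
    have : Real.log 4 = 2 * Real.log 2 := by
      rw [show (4 : ℝ) = 2 ^ 2 by norm_num, Real.log_pow]; norm_num
    have := Real.log_two_lt_d9
    linarith
  have h6 : √q ≤ 4 * (q / Real.log q) := by
    rw [← mul_div_assoc, le_div_iff₀ hlogQ]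
    set s := √q with hs
    have hs2 : s ^ 2 = q := Real.sq_sqrt (by linarith)
    have hs0 : 0 < s := Real.sqrt_pos.mpr (by linarith)
    have hlog : Real.log q ≤ 2 * s := by
      rw [← hs2, Real.log_pow]
      have := Real.log_le_sub_one_of_pos hs0
      push_cast
      linarith
    nlinarith
  have h7 : Real.log 4 * q / (Real.log q / 2) ≤ 3 * (q / Real.log q) := by
    have e : Real.log 4 * q / (Real.log q / 2) = (2 * Real.log 4) * (q / Real.log q) := by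
      field_simp
    rw [e]
    refine mul_le_mul_of_nonneg_right (by linarith) (by positivity)
  linarith

/-- the choice of `X₀` -/
private theorem QWM_ev (e φ θ N₀ P₀ : ℝ) (J : ℕ) (he : 0 < e) (hφ : 0 < φ) (hθ : 0 < θ) :
    ∃ X₀ : ℝ, ∀ X : ℝ, X₀ ≤ X → (4 ≤ X ∧ N₀ ≤ X ∧ 2 ≤ e * X) ∧ (1 ≤ Real.log X ∧ P₀ ≤ Real.log X) ∧
      2 * X ^ (0.5001 : ℝ) * (1.0002 * Real.log X) ≤ e * (X / φ) ∧
      2 * Real.log X ^ 10 + 1 ≤ θ * Real.log X ^ 13 ∧ 4 ≤ θ * Real.log X ^ 13 ∧ 1 ≤ θ ^ 2 * Real.log X ^ 13 ∧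
      X ^ (0.0003 : ℝ) * (2 * Real.log X ^ 21) ≤ √X ∧
      (J : ℝ) * (8 * 32 * 0.0001) * φ ^ 2 ≤ e * Real.log X := by
  have hlog : ∀ c : ℝ, ∀ᶠ X : ℝ in Filter.atTop, c ≤ Real.log X := fun c =>
    Real.tendsto_log_atTop.eventually_ge_atTop c
  have h21 : ∀ᶠ X : ℝ in Filter.atTop, Real.log X ^ 21 ≤ 1 / 2 * X ^ (0.4997 : ℝ) := by
    have h := (isLittleO_log_rpow_rpow_atTop (21 : ℝ) (by norm_num : (0 : ℝ) < 0.4997)).bound
      (by norm_num : (0 : ℝ) < 1 / 2)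
    filter_upwards [h, hlog 1, Filter.eventually_ge_atTop 1] with X hX hL hX1
    rw [Real.norm_eq_abs, Real.norm_eq_abs, abs_of_nonneg (by positivity), abs_of_nonneg (by positivity)] at hX
    have e1 : Real.log X ^ (21 : ℝ) = Real.log X ^ 21 := by
      rw [← Real.rpow_natCast]; norm_num
    rwa [e1] at hX
  have h1 : ∀ᶠ X : ℝ in Filter.atTop, Real.log X ≤ (e / (2.0004 * φ)) * X ^ (0.4999 : ℝ) := by
    have h := (isLittleO_log_rpow_atTop (by norm_num : (0 : ℝ) < 0.4999)).bound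
      (by positivity : (0 : ℝ) < e / (2.0004 * φ))
    filter_upwards [h, hlog 1, Filter.eventually_ge_atTop 1] with X hX hL hX1
    rw [Real.norm_eq_abs, Real.norm_eq_abs, abs_of_nonneg (by positivity), abs_of_nonneg (by positivity)] at hX
    exact hX
  have hall : ∀ᶠ X : ℝ in Filter.atTop, (4 ≤ X ∧ N₀ ≤ X ∧ 2 ≤ e * X) ∧ (1 ≤ Real.log X ∧ P₀ ≤ Real.log X) ∧
      2 * X ^ (0.5001 : ℝ) * (1.0002 * Real.log X) ≤ e * (X / φ) ∧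
      2 * Real.log X ^ 10 + 1 ≤ θ * Real.log X ^ 13 ∧ 4 ≤ θ * Real.log X ^ 13 ∧ 1 ≤ θ ^ 2 * Real.log X ^ 13 ∧
      X ^ (0.0003 : ℝ) * (2 * Real.log X ^ 21) ≤ √X ∧
      (J : ℝ) * (8 * 32 * 0.0001) * φ ^ 2 ≤ e * Real.log X := by
    filter_upwards [Filter.eventually_ge_atTop 4, Filter.eventually_ge_atTop N₀,
      Filter.eventually_ge_atTop (2 / e), hlog 1, hlog P₀, h1, h21, hlog (4 / θ), hlog (1 / θ ^ 2),
      hlog ((J : ℝ) * (8 * 32 * 0.0001) * φ ^ 2 / e)] with X a1 a2 a3 a4 a5 a6 a7 a8 a9 a10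
    have hX0 : 0 < X := by linarith
    set L := Real.log X with hL
    have hL0 : 0 < L := by linarith
    have hL10 : 1 ≤ L ^ 10 := one_le_pow₀ a4
    have hL12 : L ^ 10 ≤ L ^ 12 := pow_le_pow_right₀ a4 (by norm_num)
    have b8 : 4 ≤ θ * L := by
      rw [div_le_iff₀ hθ] at a8
      linarith
    have b13 : 4 * L ^ 12 ≤ θ * L ^ 13 := by
      calc 4 * L ^ 12 ≤ (θ * L) * L ^ 12 := mul_le_mul_of_nonneg_right b8 (by positivity)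
        _ = θ * L ^ 13 := by ring
    refine ⟨⟨a1, a2, ?_⟩, ⟨a4, a5⟩, ?_, by linarith, by linarith, ?_, ?_, ?_⟩
    · rw [div_le_iff₀ he] at a3
      linarith
    · calc 2 * X ^ (0.5001 : ℝ) * (1.0002 * L) ≤
          2 * X ^ (0.5001 : ℝ) * (1.0002 * ((e / (2.0004 * φ)) * X ^ (0.4999 : ℝ))) := by gcongr
        _ = (e / φ) * (X ^ (0.5001 : ℝ) * X ^ (0.4999 : ℝ)) := by
          field_simp
          norm_num
        _ = e * (X / φ) := by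
          rw [← Real.rpow_add hX0]
          norm_num
          ring
    · rw [div_le_iff₀ (by positivity)] at a9
      have h12 : 1 ≤ L ^ 12 := one_le_pow₀ a4
      calc (1 : ℝ) ≤ L * θ ^ 2 := a9
        _ = θ ^ 2 * L * 1 := by ring
        _ ≤ θ ^ 2 * L * L ^ 12 := mul_le_mul_of_nonneg_left h12 (by positivity)
        _ = θ ^ 2 * L ^ 13 := by ring
    · calc X ^ (0.0003 : ℝ) * (2 * L ^ 21) ≤ X ^ (0.0003 : ℝ) * (2 * (1 / 2 * X ^ (0.4997 : ℝ))) := by gcongr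
        _ = X ^ (0.0003 : ℝ) * X ^ (0.4997 : ℝ) := by ring
        _ = √X := by
          rw [← Real.rpow_add hX0, Real.sqrt_eq_rpow]
          norm_num
    · rw [div_le_iff₀ he] at a10
      linarith
  obtain ⟨X₀, h⟩ := Filter.eventually_atTop.1 hall
  exact ⟨X₀, h⟩

/-- the size of `N = ⌊X⌋₊ m² - 1` -/
private theorem QWM_N {X P : ℝ} {m : ℕ} (hX : 4 ≤ X) (hP : P ≤ X ^ (0.0001 : ℝ)) (hm2 : 2 ≤ m) (hmP : (m : ℝ) ≤ P) :
    (⌊X⌋₊ * m ^ 2 - 1) + 1 = ⌊X⌋₊ * m ^ 2 ∧ X ≤ ((⌊X⌋₊ * m ^ 2 - 1 : ℕ) : ℝ) ∧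
    (X - 2) * (m : ℝ) ^ 2 ≤ ((⌊X⌋₊ * m ^ 2 - 1 : ℕ) : ℝ) ∧ ((⌊X⌋₊ * m ^ 2 - 1 : ℕ) : ℝ) ≤ X * (m : ℝ) ^ 2 ∧
    Real.log ((⌊X⌋₊ * m ^ 2 - 1 : ℕ) : ℝ) ≤ 1.0002 * Real.log X ∧
    √((⌊X⌋₊ * m ^ 2 - 1 : ℕ) : ℝ) ≤ X ^ (0.5001 : ℝ) := by
  have hX0 : 0 < X := by linarith
  have hfl : X - 1 < (⌊X⌋₊ : ℝ) := Nat.sub_one_lt_floor X
  have hfu : (⌊X⌋₊ : ℝ) ≤ X := Nat.floor_le hX0.le
  have hf1 : 1 ≤ ⌊X⌋₊ := Nat.le_floor (by push_cast; linarith)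
  have hm2' : (2 : ℝ) ≤ m := by exact_mod_cast hm2
  have hm4 : (4 : ℝ) ≤ (m : ℝ) ^ 2 := by nlinarith
  have h1 : 1 ≤ ⌊X⌋₊ * m ^ 2 := Nat.mul_pos hf1 (by positivity)
  have hc : ((⌊X⌋₊ * m ^ 2 - 1 : ℕ) : ℝ) = (⌊X⌋₊ : ℝ) * (m : ℝ) ^ 2 - 1 := by
    rw [Nat.cast_sub h1]; push_cast; ring
  have h2 : (X - 1) * (m : ℝ) ^ 2 ≤ (⌊X⌋₊ : ℝ) * (m : ℝ) ^ 2 := mul_le_mul_of_nonneg_right hfl.le (by positivity)
  have h3 : (⌊X⌋₊ : ℝ) * (m : ℝ) ^ 2 ≤ X * (m : ℝ) ^ 2 := mul_le_mul_of_nonneg_right hfu (by positivity)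
  have hXN : X ≤ ((⌊X⌋₊ * m ^ 2 - 1 : ℕ) : ℝ) := by
    rw [hc]
    have : (X - 1) * 4 ≤ (X - 1) * (m : ℝ) ^ 2 := mul_le_mul_of_nonneg_left hm4 (by linarith)
    linarith
  have hNu : ((⌊X⌋₊ * m ^ 2 - 1 : ℕ) : ℝ) ≤ X * (m : ℝ) ^ 2 := by rw [hc]; linarith
  have hP0 : 0 < P := by linarith
  have hNP : ((⌊X⌋₊ * m ^ 2 - 1 : ℕ) : ℝ) ≤ X * P ^ 2 :=
    hNu.trans (mul_le_mul_of_nonneg_left (pow_le_pow_left₀ (by positivity) hmP 2) hX0.le)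
  refine ⟨by omega, hXN, ?_, hNu, ?_, ?_⟩
  · rw [hc]; linarith
  · have h4 : Real.log ((⌊X⌋₊ * m ^ 2 - 1 : ℕ) : ℝ) ≤ Real.log (X * P ^ 2) :=
      Real.log_le_log (by linarith) hNP
    have h5 : Real.log (X * P ^ 2) = Real.log X + 2 * Real.log P := by
      rw [Real.log_mul hX0.ne' (by positivity), Real.log_pow]
      push_cast
      ring
    have h6 : Real.log P ≤ 0.0001 * Real.log X := by
      have := Real.log_le_log hP0 hP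
      rwa [Real.log_rpow hX0] at this
    linarith
  · have h4 : √((⌊X⌋₊ * m ^ 2 - 1 : ℕ) : ℝ) ≤ √(X * P ^ 2) := Real.sqrt_le_sqrt hNP
    refine h4.trans ?_
    rw [Real.sqrt_mul hX0.le, Real.sqrt_sq hP0.le, Real.sqrt_eq_rpow]
    calc X ^ (1 / 2 : ℝ) * P ≤ X ^ (1 / 2 : ℝ) * X ^ (0.0001 : ℝ) := mul_le_mul_of_nonneg_left hP (by positivity)
      _ = X ^ (0.5001 : ℝ) := by
        rw [← Real.rpow_add hX0]; norm_num

/-- one block -/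
private theorem QWM_block {X P φ e L q m ps : ℝ} {fl N lN : ℝ} (hX : 4 ≤ X) (hL : 1 ≤ L) (hφ : 0 < φ)
    (he : 0 < e) (he1 : e ≤ 1 / 14) (heX : 2 ≤ e * X) (hq : 4 ≤ (1 - e) * q) (hqP : q ≤ P)
    (hm1 : (1 - e) * q ≤ m) (hm2 : m ≤ (1 - e) * q + 1) (hfl : q - 1 ≤ fl) (hN1 : (X - 2) * m ^ 2 ≤ N)
    (hN2 : N ≤ X * m ^ 2) (hlN : L ≤ lN) (hp0 : 0 < ps) (hpq : ps ≤ q) :
    (1 - 4 * e) * (X / φ) ≤ (1 - e) * (N / (φ * ps ^ 2)) ∧ N / (fl * lN ^ 2) ≤ 8 * X * P / L ^ 2 := by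
  have hq0 : 4 ≤ q := by nlinarith
  have hX0 : 0 < X := by linarith
  constructor
  · have a1 : (1 - e) * X ≤ X - 2 := by linarith
    have a2 : ((1 - e) * q) ^ 2 ≤ m ^ 2 := pow_le_pow_left₀ (by linarith) hm1 2
    have a3 : ps ^ 2 ≤ q ^ 2 := pow_le_pow_left₀ hp0.le hpq 2
    have a4 : (1 - e) * X * ((1 - e) ^ 2 * ps ^ 2) ≤ N := by
      calc (1 - e) * X * ((1 - e) ^ 2 * ps ^ 2) ≤ (X - 2) * ((1 - e) ^ 2 * ps ^ 2) :=
            mul_le_mul_of_nonneg_right a1 (by positivity)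
        _ ≤ (X - 2) * ((1 - e) ^ 2 * q ^ 2) := by
            apply mul_le_mul_of_nonneg_left _ (by linarith)
            exact mul_le_mul_of_nonneg_left a3 (by positivity)
        _ = (X - 2) * ((1 - e) * q) ^ 2 := by ring
        _ ≤ (X - 2) * m ^ 2 := mul_le_mul_of_nonneg_left a2 (by linarith)
        _ ≤ N := hN1
    have a5 : (1 - e) ^ 3 * (X / φ) ≤ N / (φ * ps ^ 2) := by
      rw [le_div_iff₀ (by positivity)]
      calc (1 - e) ^ 3 * (X / φ) * (φ * ps ^ 2) = (1 - e) * X * ((1 - e) ^ 2 * ps ^ 2) := by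
            field_simp
        _ ≤ N := a4
    have a6 : 1 - 4 * e ≤ (1 - e) ^ 4 := by
      have := one_add_mul_le_pow (show (-2 : ℝ) ≤ -e by linarith) 4
      push_cast at this
      have e1 : (1 + -e) ^ 4 = (1 - e) ^ 4 := by ring
      rw [e1] at this
      linarith
    calc (1 - 4 * e) * (X / φ) ≤ (1 - e) ^ 4 * (X / φ) := mul_le_mul_of_nonneg_right a6 (by positivity)
      _ = (1 - e) * ((1 - e) ^ 3 * (X / φ)) := by ring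
      _ ≤ (1 - e) * (N / (φ * ps ^ 2)) := mul_le_mul_of_nonneg_left a5 (by linarith)
  · have b1 : m ≤ 2 * q := by nlinarith
    have b0 : 0 ≤ m := by linarith
    have b2 : N ≤ X * (4 * q ^ 2) := by
      refine hN2.trans ?_
      have : m ^ 2 ≤ (2 * q) ^ 2 := pow_le_pow_left₀ b0 b1 2
      have e2 : (2 * q) ^ 2 = 4 * q ^ 2 := by ring
      rw [e2] at this
      exact mul_le_mul_of_nonneg_left this hX0.le
    have b3 : q / 2 ≤ fl := by linarith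
    have b4 : L ^ 2 ≤ lN ^ 2 := pow_le_pow_left₀ (by linarith) hlN 2
    have b5 : q / 2 * L ^ 2 ≤ fl * lN ^ 2 := mul_le_mul b3 b4 (by positivity) (by linarith)
    calc N / (fl * lN ^ 2) ≤ (X * (4 * q ^ 2)) / (q / 2 * L ^ 2) :=
          div_le_div₀ (by positivity) b2 (by positivity) b5
      _ = 8 * X * q / L ^ 2 := by
          field_simp
          ring
      _ ≤ 8 * X * P / L ^ 2 := by gcongr

/-- the upper bound from `QWN` -/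
private theorem QWM_up (h3 : QWN_stmt) {W a₀ b r p m : ℕ} {X P e φ : ℝ} (hWpos : 0 < W) (hX4 : 4 ≤ X)
    (hPX : P ≤ X ^ (0.0001 : ℝ))
    (f3 : 2 * X ^ (0.5001 : ℝ) * (1.0002 * Real.log X) ≤ e * (X / φ)) (p1 : p.Prime) (p2 : p ≡ b [MOD W])
    (p3 : p.Coprime W) (p5 : (p : ℝ) ≤ P) (hr1 : r + 1 ≡ a₀ * b ^ 2 [MOD W]) (hm2 : 2 ≤ m) (hmp : m ≤ p) :
    ∑ n ∈ (Ioc 0 (⌊X⌋₊ * m ^ 2 - 1)).filter (fun n : ℕ => n ≡ r [MOD W] ∧ n ≡ p ^ 2 - 1 [MOD p ^ 2]),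
      ArithmeticFunction.vonMangoldt n ≤ 1.0002 * Real.log X *
        (((As W a₀ X).filter (fun a : ℕ => (a * p ^ 2 - 1).Prime)).card : ℝ) + e * (X / φ) := by
  have hmP : (m : ℝ) ≤ P := le_trans (by exact_mod_cast hmp) p5
  obtain ⟨n1, n2, n3, n4, n5, n6⟩ := QWM_N hX4 hPX hm2 hmP
  have k1 : 1 ≤ ⌊X⌋₊ * m ^ 2 - 1 := by
    have : (1 : ℝ) ≤ ((⌊X⌋₊ * m ^ 2 - 1 : ℕ) : ℝ) := by linarith
    exact_mod_cast this
  have k2 : (⌊X⌋₊ * m ^ 2 - 1) + 1 ≤ ⌊X⌋₊ * p ^ 2 := by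
    rw [n1]
    exact Nat.mul_le_mul_left _ (Nat.pow_le_pow_left hmp 2)
  have k3 := h3 W a₀ b r p (⌊X⌋₊ * m ^ 2 - 1) X hWpos p1 p3 p2 hr1 k1 k2
  have k4 : 0 ≤ Real.log ((⌊X⌋₊ * m ^ 2 - 1 : ℕ) : ℝ) := Real.log_nonneg (by linarith)
  have k5 : Real.log ((⌊X⌋₊ * m ^ 2 - 1 : ℕ) : ℝ) *
      (((As W a₀ X).filter (fun a : ℕ => (a * p ^ 2 - 1).Prime)).card : ℝ) ≤ 1.0002 * Real.log X *
      (((As W a₀ X).filter (fun a : ℕ => (a * p ^ 2 - 1).Prime)).card : ℝ) :=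
    mul_le_mul_of_nonneg_right n5 (Nat.cast_nonneg _)
  have k6 : 2 * √((⌊X⌋₊ * m ^ 2 - 1 : ℕ) : ℝ) * Real.log ((⌊X⌋₊ * m ^ 2 - 1 : ℕ) : ℝ) ≤
      2 * X ^ (0.5001 : ℝ) * (1.0002 * Real.log X) := by
    apply mul_le_mul _ n5 k4 (by positivity)
    linarith
  exact k3.trans (add_le_add k5 (k6.trans f3))

/-- the case of small `P`, one prime -/
private theorem QWM_sp {X e φ N ps A ψ : ℝ} (hφ : 0 < φ) (he : 0 < e) (he1 : e ≤ 1 / 14) (hX : 4 ≤ X)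
    (heX : 2 ≤ e * X) (hps : 0 < ps) (hN : (X - 2) * ps ^ 2 ≤ N) (k5 : (1 - e) * (N / (φ * ps ^ 2)) ≤ ψ)
    (k4 : ψ ≤ A + e * (X / φ)) : (1 - 7 * e) * (X / φ) ≤ A := by
  have he' : 0 < 1 - e := by linarith
  have hXφ : 0 < X / φ := by positivity
  have k6 : (1 - e) * (X / φ) ≤ N / (φ * ps ^ 2) := by
    rw [le_div_iff₀ (by positivity)]
    calc (1 - e) * (X / φ) * (φ * ps ^ 2) = ((1 - e) * X) * ps ^ 2 := by field_simp
      _ ≤ (X - 2) * ps ^ 2 := mul_le_mul_of_nonneg_right (by linarith) (by positivity)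
      _ ≤ _ := hN
  have k7 : (1 - e) * ((1 - e) * (X / φ)) ≤ (1 - e) * (N / (φ * ps ^ 2)) :=
    mul_le_mul_of_nonneg_left k6 he'.le
  have k8 : (1 - 7 * e) * (X / φ) ≤ (1 - e) * ((1 - e) * (X / φ)) - e * (X / φ) := by
    have : (1 - e) * ((1 - e) * (X / φ)) - e * (X / φ) - (1 - 7 * e) * (X / φ) = (4 * e + e ^ 2) * (X / φ) := by ring
    have h0 : 0 ≤ (4 * e + e ^ 2) * (X / φ) := by positivity
    linarith
  linarith

/-- the conditions of `QWL` -/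
private theorem QWM_cond {X q lN : ℝ} {N : ℕ} (hX4 : 4 ≤ X) (hq0 : 0 ≤ q) (hqX : q ≤ X ^ (0.0001 : ℝ))
    (hL1 : 1 ≤ Real.log X) (hlogN : Real.log X ≤ lN) (n2 : X ≤ (N : ℝ))
    (n5 : lN ≤ 1.0002 * Real.log X) (hq : 2 * Real.log X ^ 10 + 1 ≤ q)
    (f5 : X ^ (0.0003 : ℝ) * (2 * Real.log X ^ 21) ≤ √X) :
    lN ^ 10 ≤ (⌊q⌋₊ : ℝ) ∧ (⌊q⌋₊ : ℝ) ^ 3 * lN ^ 21 ≤ √(N : ℝ) := by
  have hX0 : 0 < X := by linarith
  have hfl1 : q - 1 ≤ (⌊q⌋₊ : ℝ) := (Nat.sub_one_lt_floor _).le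
  have hfl2 : (⌊q⌋₊ : ℝ) ≤ q := Nat.floor_le hq0
  constructor
  · have d1 : lN ^ 10 ≤ (1.0002 * Real.log X) ^ 10 := pow_le_pow_left₀ (by linarith) n5 10
    have d2 : (1.0002 * Real.log X) ^ 10 ≤ 2 * Real.log X ^ 10 := by
      rw [mul_pow]
      exact mul_le_mul_of_nonneg_right (by norm_num) (by positivity)
    linarith
  · have d1 : lN ^ 21 ≤ (1.0002 * Real.log X) ^ 21 := pow_le_pow_left₀ (by linarith) n5 21
    have d2 : (1.0002 * Real.log X) ^ 21 ≤ 2 * Real.log X ^ 21 := by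
      rw [mul_pow]
      exact mul_le_mul_of_nonneg_right (by norm_num) (by positivity)
    have d3 : (⌊q⌋₊ : ℝ) ^ 3 ≤ X ^ (0.0003 : ℝ) := by
      calc (⌊q⌋₊ : ℝ) ^ 3 ≤ (X ^ (0.0001 : ℝ)) ^ 3 :=
            pow_le_pow_left₀ (Nat.cast_nonneg _) (hfl2.trans hqX) 3
        _ = X ^ (0.0003 : ℝ) := by
            rw [← Real.rpow_natCast, ← Real.rpow_mul hX0.le]
            norm_num
    calc (⌊q⌋₊ : ℝ) ^ 3 * lN ^ 21 ≤ X ^ (0.0003 : ℝ) * (2 * Real.log X ^ 21) :=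
          mul_le_mul d3 (d1.trans d2) (by
            have : 0 ≤ lN := by linarith
            positivity) (by positivity)
      _ ≤ √X := f5
      _ ≤ √(N : ℝ) := Real.sqrt_le_sqrt n2

/-- one block, summed -/
private theorem QWM_bs {X P φ e q qs : ℝ} {m N : ℕ} (S : Finset ℕ) (f ψ : ℕ → ℝ) (hX4 : 4 ≤ X)
    (hL1 : 1 ≤ Real.log X) (hφ : 0 < φ) (he : 0 < e) (he1 : e ≤ 1 / 14) (heX : 2 ≤ e * X)
    (hqs : qs = (1 - e) * q) (hq4 : 4 ≤ qs) (hqP : q ≤ P)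
    (hm1 : qs ≤ m) (hm1' : (m : ℝ) ≤ qs + 1) (n3 : (X - 2) * (m : ℝ) ^ 2 ≤ (N : ℝ))
    (n4 : (N : ℝ) ≤ X * (m : ℝ) ^ 2) (hlogN : Real.log X ≤ Real.log N)
    (hS : ∀ p ∈ S, (0 : ℝ) < p ∧ (p : ℝ) ≤ q)
    (c5 : ∑ p ∈ S, ψ p ≤ ∑ p ∈ S, (f p + e * (X / φ)))
    (c6 : ∑ p ∈ S, (1 - e) * ((N : ℝ) / (φ * (p : ℝ) ^ 2)) - (N : ℝ) / (⌊q⌋₊ * Real.log N ^ 2) ≤
          ∑ p ∈ S, ψ p) :
    ((1 - 5 * e) * (X / φ)) * (S.card : ℝ) - 8 * X * P / Real.log X ^ 2 ≤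
      ∑ p ∈ S, f p := by
  have hfl1 : q - 1 ≤ (⌊q⌋₊ : ℝ) := (Nat.sub_one_lt_floor _).le
  have hq0 : 0 < q := by nlinarith
  rw [hqs] at hq4 hm1 hm1'
  have hblk : ∀ ps : ℝ, 0 < ps → ps ≤ q → (1 - 4 * e) * (X / φ) ≤ (1 - e) * ((N : ℝ) / (φ * ps ^ 2)) ∧
      (N : ℝ) / (⌊q⌋₊ * Real.log N ^ 2) ≤ 8 * X * P / Real.log X ^ 2 := by
    intro ps g1 g2
    exact QWM_block hX4 hL1 hφ he he1 heX hq4 hqP hm1 hm1' hfl1 n3 n4 hlogN g1 g2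
  have c7 : (S.card : ℝ) * ((1 - 4 * e) * (X / φ)) ≤ ∑ p ∈ S, (1 - e) * ((N : ℝ) / (φ * (p : ℝ) ^ 2)) := by
    rw [← nsmul_eq_mul]
    refine Finset.card_nsmul_le_sum _ _ _ fun p hp => ?_
    exact (hblk p (hS p hp).1 (hS p hp).2).1
  have c8 := (hblk q hq0 le_rfl).2
  have c9 : ∑ p ∈ S, (f p + e * (X / φ)) =
      (∑ p ∈ S, f p) + (S.card : ℝ) * (e * (X / φ)) := by
    rw [Finset.sum_add_distrib, Finset.sum_const, nsmul_eq_mul]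
  have c10 : ((1 - 5 * e) * (X / φ)) * (S.card : ℝ) = (S.card : ℝ) * ((1 - 4 * e) * (X / φ)) -
      (S.card : ℝ) * (e * (X / φ)) := by ring
  linarith

/-- the last step for large `P` -/
private theorem QWM_fin {X P φ e L LP T T1 T2 Sm1 Sm2 : ℝ} {J : ℕ} (hX : 4 ≤ X) (hφ : 0 < φ) (he : 0 < e)
    (he1 : e ≤ 1 / 14) (hL : 1 ≤ L) (hT0 : 0 ≤ T) (hLP0 : 0 < LP) (hLPL : LP ≤ 0.0001 * L)
    (hPl : P / LP ≤ 32 * φ * T) (f6 : (J : ℝ) * (8 * 32 * 0.0001) * φ ^ 2 ≤ e * L)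
    (htel : ((1 - 5 * e) * (X / φ)) * T1 - J * (8 * X * P / L ^ 2) ≤ Sm1) (hsub : Sm1 ≤ Sm2)
    (hsm : T2 ≤ e * T) (hsplit : T1 + T2 = T) :
    (1 - 7 * e) * (T * (X / φ)) ≤ Sm2 := by
  have hL0 : 0 < L := by linarith
  have hXφ : 0 < X / φ := by positivity
  have hE : (J : ℝ) * (8 * X * P / L ^ 2) ≤ e * (X / φ) * T := by
    have g1 : P ≤ 32 * φ * T * (0.0001 * L) := by
      rw [div_le_iff₀ hLP0] at hPl
      refine hPl.trans (mul_le_mul_of_nonneg_left hLPL (by positivity))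
    calc (J : ℝ) * (8 * X * P / L ^ 2) ≤
        (J : ℝ) * (8 * X * (32 * φ * T * (0.0001 * L)) / L ^ 2) := by gcongr
      _ = ((J : ℝ) * (8 * 32 * 0.0001) * φ ^ 2) / L * ((X / φ) * T) := by
          field_simp
      _ ≤ e * ((X / φ) * T) := by
          apply mul_le_mul_of_nonneg_right _ (by positivity)
          rw [div_le_iff₀ hL0]
          exact f6
      _ = e * (X / φ) * T := by ring
  have hfin : ((1 - 5 * e) * (X / φ)) * ((1 - e) * T) ≤ ((1 - 5 * e) * (X / φ)) * T1 := by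
    apply mul_le_mul_of_nonneg_left
    · linarith
    · have : 0 ≤ 1 - 5 * e := by linarith
      positivity
  have hfin2 : (1 - 7 * e) * (T * (X / φ)) ≤ ((1 - 5 * e) * (X / φ)) * ((1 - e) * T) - e * (X / φ) * T := by
    have : ((1 - 5 * e) * (X / φ)) * ((1 - e) * T) - e * (X / φ) * T - (1 - 7 * e) * (T * (X / φ)) =
        5 * e ^ 2 * (X / φ * T) := by ring
    have h0 : 0 ≤ 5 * e ^ 2 * (X / φ * T) := by positivity
    linarith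
  linarith

/-- the primes up to `θ P` are few -/
private theorem QWM_few {P θ φ e T L : ℝ} (S : Finset ℕ) (hP0 : 0 < P) (hP1 : 1 < P) (hθ : 0 < θ)
    (hJ : θ < e / (448 * φ)) (hφ : 0 < φ) (hT0 : 0 ≤ T) (hLP : L ^ 13 < P)
    (f4a : 4 ≤ θ * L ^ 13) (f4b : 1 ≤ θ ^ 2 * L ^ 13) (hPl : P / Real.log P ≤ 32 * φ * T)
    (hS : ∀ p ∈ S, p.Prime ∧ (p : ℝ) ≤ θ * P) : (S.card : ℝ) ≤ e * T := by
  have hlogP : 0 < Real.log P := Real.log_pos hP1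
  have hθP : θ * L ^ 13 ≤ θ * P := mul_le_mul_of_nonneg_left hLP.le hθ.le
  have g1 : 1 < θ * P := by linarith
  have g2 := QWM_pi (θ * P) g1 S hS
  have g3 : Real.log P / 2 ≤ Real.log (θ * P) := by
    rw [Real.log_mul hθ.ne' hP0.ne']
    have g4 : 0 ≤ Real.log (θ ^ 2 * P) := by
      apply Real.log_nonneg
      have : θ ^ 2 * L ^ 13 ≤ θ ^ 2 * P := mul_le_mul_of_nonneg_left hLP.le (by positivity)
      linarith
    rw [Real.log_mul (by positivity) hP0.ne', Real.log_pow] at g4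
    push_cast at g4
    linarith
  have g5 : θ * P / Real.log (θ * P) ≤ θ * P / (Real.log P / 2) :=
    div_le_div_of_nonneg_left (by positivity) (by positivity) g3
  have g6 : θ * P / (Real.log P / 2) = 2 * θ * (P / Real.log P) := by
    field_simp
  have g7 : 2 * θ * (P / Real.log P) ≤ 2 * θ * (32 * φ * T) := mul_le_mul_of_nonneg_left hPl (by positivity)
  have g8 : 7 * (2 * θ * (32 * φ * T)) ≤ e * T := by
    have : θ * (448 * φ) ≤ e := by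
      rw [lt_div_iff₀ (by positivity)] at hJ
      exact hJ.le
    calc 7 * (2 * θ * (32 * φ * T)) = (θ * (448 * φ)) * T := by ring
      _ ≤ e * T := mul_le_mul_of_nonneg_right this hT0
  linarith

/-- the class of `n` -/
private theorem QWM_cls (w a₀ b : ℕ) (hl : ∀ l : ℕ, l.Prime → l ≤ w → ¬ (a₀ * b ^ 2 ≡ 1 [MOD l])) :
    ∃ r : ℕ, r < primorial w ∧ r + 1 ≡ a₀ * b ^ 2 [MOD primorial w] ∧ r.Coprime (primorial w) := by
  have hWpos : 0 < primorial w := primorial_pos w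
  have hr1 : (a₀ * b ^ 2 + (primorial w - 1)) % primorial w + 1 ≡ a₀ * b ^ 2 [MOD primorial w] := by
    have e1 : (a₀ * b ^ 2 + (primorial w - 1)) % primorial w ≡ a₀ * b ^ 2 + (primorial w - 1)
        [MOD primorial w] := Nat.mod_modEq _ _
    have e2 := e1.add_right 1
    have e3 : a₀ * b ^ 2 + (primorial w - 1) + 1 = a₀ * b ^ 2 + primorial w := by omega
    rw [e3] at e2
    exact e2.trans (by simp [Nat.ModEq])
  refine ⟨(a₀ * b ^ 2 + (primorial w - 1)) % primorial w, Nat.mod_lt _ hWpos, hr1, ?_⟩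
  by_contra hc
  obtain ⟨l, hlp, hlr, hlW⟩ := Nat.Prime.not_coprime_iff_dvd.1 hc
  have hlw : l ≤ w := by
    obtain ⟨k, hk, hlk⟩ := (Prime.dvd_finsetProd_iff hlp.prime (fun p => p)).1 hlW
    obtain ⟨hk1, hk2⟩ := Finset.mem_filter.1 hk
    rw [Finset.mem_range] at hk1
    have := (Nat.prime_dvd_prime_iff_eq hlp hk2).1 hlk
    omega
  apply hl l hlp hlw
  have e1 := hr1.of_dvd hlW
  have e2 : (a₀ * b ^ 2 + (primorial w - 1)) % primorial w ≡ 0 [MOD l] := (Nat.modEq_zero_iff_dvd).2 hlr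
  exact (e1.symm.trans (e2.add_right 1))

/-- facts on the primes -/
private theorem QWM_Ps {W b : ℕ} {P : ℝ} (hb : b.Coprime W) : ∀ p ∈ Ps W b P,
    p.Prime ∧ p ≡ b [MOD W] ∧ p.Coprime W ∧ ¬ p ∣ W ∧ (p : ℝ) ≤ P := by
  intro p hp
  obtain ⟨q1, q2, q3⟩ := Finset.mem_filter.1 hp
  rw [Finset.mem_Icc] at q1
  have q4 : p.Coprime W := by
    have := q3.gcd_eq
    unfold Nat.Coprime
    rw [this]
    exact hb
  refine ⟨q2, q3, q4, ?_, ?_⟩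
  · intro hd
    have : p ∣ 1 := by
      have := Nat.dvd_gcd dvd_rfl hd
      rwa [q4] at this
    exact q2.one_lt.ne' (Nat.dvd_one.1 this)
  · have hP1 : 0 ≤ P := by
      by_contra hc
      have : ⌊P⌋₊ = 0 := Nat.floor_of_nonpos (by linarith)
      omega
    exact (Nat.le_floor_iff hP1).1 q1.2

/-- the statements of `QWS`, `QWL` for all classes -/
private theorem QWM_thr (h1 : QWS_stmt) (h2 : QWL_stmt) (W : ℕ) (hWpos : 0 < W) (e : ℝ) (he : 0 < e) :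
    ∃ N₀ : ℕ, ∀ r : ℕ, r < W → r.Coprime W → ∀ N : ℕ, N₀ ≤ N →
      (∀ p : ℕ, p.Prime → ¬ p ∣ W → (p : ℝ) ≤ Real.log N ^ 13 →
        (1 - e) * (N / ((Nat.totient W : ℝ) * (p : ℝ) ^ 2)) ≤
        ∑ n ∈ (Ioc 0 N).filter (fun n : ℕ => n ≡ r [MOD W] ∧ n ≡ p ^ 2 - 1 [MOD p ^ 2]),
          ArithmeticFunction.vonMangoldt n) ∧
      (∀ P : ℕ, Real.log N ^ 10 ≤ P → (P : ℝ) ^ 3 * Real.log N ^ 21 ≤ Real.sqrt N →
        ∀ S : Finset ℕ, (∀ p ∈ S, p.Prime ∧ ¬ p ∣ W ∧ p ≤ P ∧ P ≤ 2 * p) →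
        ∑ p ∈ S, (1 - e) * (N / ((Nat.totient W : ℝ) * (p : ℝ) ^ 2)) - N / (P * Real.log N ^ 2) ≤
          ∑ p ∈ S, ∑ n ∈ (Ioc 0 N).filter (fun n : ℕ => n ≡ r [MOD W] ∧ n ≡ p ^ 2 - 1 [MOD p ^ 2]),
            ArithmeticFunction.vonMangoldt n) := by
  have hS : ∀ r : ℕ, ∃ N₀ : ℕ, r.Coprime W → ∀ N : ℕ, N₀ ≤ N →
      ∀ p : ℕ, p.Prime → ¬ p ∣ W → (p : ℝ) ≤ Real.log N ^ 13 →
      (1 - e) * (N / ((Nat.totient W : ℝ) * (p : ℝ) ^ 2)) ≤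
        ∑ n ∈ (Ioc 0 N).filter (fun n : ℕ => n ≡ r [MOD W] ∧ n ≡ p ^ 2 - 1 [MOD p ^ 2]),
          ArithmeticFunction.vonMangoldt n := by
    intro r
    by_cases hr : r.Coprime W
    · obtain ⟨N₀, h⟩ := h1 W r 13 hWpos hr e he
      exact ⟨N₀, fun _ => h⟩
    · exact ⟨0, fun h => absurd h hr⟩
  have hLs : ∀ r : ℕ, ∃ N₀ : ℕ, r.Coprime W → ∀ N : ℕ, N₀ ≤ N →
      ∀ P : ℕ, Real.log N ^ 10 ≤ P → (P : ℝ) ^ 3 * Real.log N ^ 21 ≤ Real.sqrt N →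
      ∀ S : Finset ℕ, (∀ p ∈ S, p.Prime ∧ ¬ p ∣ W ∧ p ≤ P ∧ P ≤ 2 * p) →
      ∑ p ∈ S, (1 - e) * (N / ((Nat.totient W : ℝ) * (p : ℝ) ^ 2)) - N / (P * Real.log N ^ 2) ≤
        ∑ p ∈ S, ∑ n ∈ (Ioc 0 N).filter (fun n : ℕ => n ≡ r [MOD W] ∧ n ≡ p ^ 2 - 1 [MOD p ^ 2]),
          ArithmeticFunction.vonMangoldt n := by
    intro r
    by_cases hr : r.Coprime W
    · obtain ⟨N₀, h⟩ := h2 W r hWpos hr e he
      exact ⟨N₀, fun _ => h⟩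
    · exact ⟨0, fun h => absurd h hr⟩
  choose NS hNS using hS
  choose NL hNL using hLs
  refine ⟨(range W).sup NS + (range W).sup NL, fun r hr hrc N hN => ?_⟩
  have e3 : NS r ≤ (range W).sup NS := Finset.le_sup (f := NS) (mem_range.2 hr)
  have e4 : NL r ≤ (range W).sup NL := Finset.le_sup (f := NL) (mem_range.2 hr)
  exact ⟨hNS r hrc N (by omega), hNL r hrc N (by omega)⟩

/-- the geometric sequence -/
private theorem QWM_q {e P θ : ℝ} {J : ℕ} (he : 0 < e) (he1 : e ≤ 1 / 14) (hP0 : 0 < P) (hθd : θ = (1 - e) ^ J) :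
    ∃ q : ℕ → ℝ, q 0 = P ∧ q J = θ * P ∧ (∀ j, q (j + 1) = (1 - e) * q j) ∧ (∀ j, 0 < q j) ∧ (∀ j, q (j + 1) ≤ q j) ∧
      (∀ j, q j ≤ P) ∧ ∀ j, j ≤ J → θ * P ≤ q j := by
  have he' : 0 < 1 - e := by linarith
  have hq0 : ∀ j : ℕ, 0 < (1 - e) ^ j * P := by intro j; positivity
  refine ⟨fun j => (1 - e) ^ j * P, by simp, by simp only; rw [hθd], ?_, hq0, ?_, ?_, ?_⟩
  · intro j; simp only; ring
  · intro j
    simp only
    have := hq0 j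
    calc (1 - e) ^ (j + 1) * P = (1 - e) * ((1 - e) ^ j * P) := by ring
      _ ≤ 1 * ((1 - e) ^ j * P) := mul_le_mul_of_nonneg_right (by linarith) this.le
      _ = _ := one_mul _
  · intro j
    simp only
    have : (1 - e) ^ j ≤ 1 := pow_le_one₀ he'.le (by linarith)
    nlinarith
  · intro j hj
    simp only
    rw [hθd]
    apply mul_le_mul_of_nonneg_right _ hP0.le
    exact pow_le_pow_of_le_one he'.le (by linarith) hj

/-- one block, from `QWL` and `QWN` -/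
private theorem QWM_blk1 (h3 : QWN_stmt) {W a₀ b r N₀ : ℕ} {X P φ e q qs : ℝ} (S : Finset ℕ) (f : ℕ → ℝ)
    (hWpos : 0 < W) (hφ : 0 < φ) (he : 0 < e) (he1 : e ≤ 1 / 14) (hX4 : 4 ≤ X) (heX : 2 ≤ e * X)
    (hN₀X : (N₀ : ℝ) ≤ X) (hL1 : 1 ≤ Real.log X)
    (f3 : 2 * X ^ (0.5001 : ℝ) * (1.0002 * Real.log X) ≤ e * (X / φ))
    (f5 : X ^ (0.0003 : ℝ) * (2 * Real.log X ^ 21) ≤ √X) (hPX : P ≤ X ^ (0.0001 : ℝ))
    (hr1 : r + 1 ≡ a₀ * b ^ 2 [MOD W])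
    (hN : ∀ N : ℕ, N₀ ≤ N → ∀ P : ℕ, Real.log N ^ 10 ≤ P → (P : ℝ) ^ 3 * Real.log N ^ 21 ≤ Real.sqrt N →
        ∀ S : Finset ℕ, (∀ p ∈ S, p.Prime ∧ ¬ p ∣ W ∧ p ≤ P ∧ P ≤ 2 * p) →
        ∑ p ∈ S, (1 - e) * (N / (φ * (p : ℝ) ^ 2)) - N / (P * Real.log N ^ 2) ≤
          ∑ p ∈ S, ∑ n ∈ (Ioc 0 N).filter (fun n : ℕ => n ≡ r [MOD W] ∧ n ≡ p ^ 2 - 1 [MOD p ^ 2]),
            ArithmeticFunction.vonMangoldt n)
    (hf : ∀ p : ℕ, f p = 1.0002 * Real.log X *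
      (((As W a₀ X).filter (fun a : ℕ => (a * p ^ 2 - 1).Prime)).card : ℝ))
    (hPs : ∀ p ∈ S, p.Prime ∧ p ≡ b [MOD W] ∧ p.Coprime W ∧ ¬ p ∣ W ∧ (p : ℝ) ≤ P)
    (hqs : qs = (1 - e) * q) (hq4 : 4 ≤ qs) (hqP : q ≤ P) (hq10 : 2 * Real.log X ^ 10 + 1 ≤ q)
    (hSm : ∀ p ∈ S, qs < (p : ℝ) ∧ (p : ℝ) ≤ q) (hS0 : S.Nonempty) :
    ((1 - 5 * e) * (X / φ)) * (S.card : ℝ) - 8 * X * P / Real.log X ^ 2 ≤ ∑ p ∈ S, f p := by
  have hX0 : 0 < X := by linarith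
  have hq0 : 0 < q := by nlinarith
  obtain ⟨p₀, hp₀⟩ := hS0
  obtain ⟨m, hmd⟩ : ∃ m : ℕ, m = ⌈qs⌉₊ := ⟨_, rfl⟩
  have hmS : ∀ p ∈ S, m ≤ p := by
    intro p hp
    rw [hmd]
    exact Nat.ceil_le.2 (hSm p hp).1.le
  have hm1 : qs ≤ m := by rw [hmd]; exact Nat.le_ceil _
  have hm1' : (m : ℝ) ≤ qs + 1 := by
    rw [hmd]; exact (Nat.ceil_lt_add_one (by linarith)).le
  have hm2 : 2 ≤ m := by
    have : (2 : ℝ) ≤ m := by linarith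
    exact_mod_cast this
  have hmP : (m : ℝ) ≤ P :=
    le_trans (by exact_mod_cast hmS p₀ hp₀) (hPs p₀ hp₀).2.2.2.2
  obtain ⟨n1, n2, n3, n4, n5, n6⟩ := QWM_N hX4 hPX hm2 hmP
  obtain ⟨N, hNd⟩ : ∃ N : ℕ, N = ⌊X⌋₊ * m ^ 2 - 1 := ⟨_, rfl⟩
  rw [← hNd] at n1 n2 n3 n4 n5 n6
  have hlogN : Real.log X ≤ Real.log N := Real.log_le_log hX0 n2
  obtain ⟨c1, c2⟩ := QWM_cond hX4 hq0.le (hqP.trans hPX) hL1 hlogN n2 n5 hq10 f5
  have c3 : ∀ p ∈ S, p.Prime ∧ ¬ p ∣ W ∧ p ≤ ⌊q⌋₊ ∧ ⌊q⌋₊ ≤ 2 * p := by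
    intro p hp
    obtain ⟨s2, s3⟩ := hSm p hp
    obtain ⟨p1, p2, p3, p4, p5⟩ := hPs p hp
    refine ⟨p1, p4, Nat.le_floor s3, ?_⟩
    have hfl2 : (⌊q⌋₊ : ℝ) ≤ q := Nat.floor_le hq0.le
    have d1 : (⌊q⌋₊ : ℝ) ≤ 2 * p := by
      rw [hqs] at s2
      nlinarith
    exact_mod_cast d1
  have c4 := hN N (by exact_mod_cast hN₀X.trans n2) ⌊q⌋₊ c1 c2 S c3
  have c5 : ∑ p ∈ S, ∑ n ∈ (Ioc 0 N).filter (fun n : ℕ => n ≡ r [MOD W] ∧ n ≡ p ^ 2 - 1 [MOD p ^ 2]),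
      ArithmeticFunction.vonMangoldt n ≤ ∑ p ∈ S, (f p + e * (X / φ)) := by
    refine Finset.sum_le_sum fun p hp => ?_
    obtain ⟨p1, p2, p3, p4, p5⟩ := hPs p hp
    rw [hNd, hf p]
    exact QWM_up h3 hWpos hX4 hPX f3 p1 p2 p3 p5 hr1 hm2 (hmS p hp)
  exact QWM_bs S f _ hX4 hL1 hφ he he1 heX hqs hq4 hqP hm1 hm1' n3 n4 hlogN
    (fun p hp => ⟨by exact_mod_cast (hPs p hp).1.pos, (hSm p hp).2⟩) c5 c4

/-- large `P`: from the blocks -/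
private theorem QWM_large {W b J : ℕ} {X P φ e θ : ℝ} (f : ℕ → ℝ)
    (hφ : 0 < φ) (he : 0 < e) (he1 : e ≤ 1 / 14) (hθ : 0 < θ) (hθd : θ = (1 - e) ^ J)
    (hJ : θ < e / (448 * φ)) (hX4 : 4 ≤ X) (hL1 : 1 ≤ Real.log X)
    (f4 : 2 * Real.log X ^ 10 + 1 ≤ θ * Real.log X ^ 13) (f4a : 4 ≤ θ * Real.log X ^ 13)
    (f4b : 1 ≤ θ ^ 2 * Real.log X ^ 13) (f6 : (J : ℝ) * (8 * 32 * 0.0001) * φ ^ 2 ≤ e * Real.log X)
    (hPX : P ≤ X ^ (0.0001 : ℝ)) (hc : Real.log X ^ 13 < P)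
    (hPs : ∀ p ∈ Ps W b P, p.Prime ∧ (p : ℝ) ≤ P)
    (hT : P / (32 * φ * Real.log P) ≤ ((Ps W b P).card : ℝ)) (hf0 : ∀ p, 0 ≤ f p)
    (hblk : ∀ (S : Finset ℕ) (q qs : ℝ), S ⊆ Ps W b P → qs = (1 - e) * q → 4 ≤ qs → q ≤ P →
      2 * Real.log X ^ 10 + 1 ≤ q → (∀ p ∈ S, qs < (p : ℝ) ∧ (p : ℝ) ≤ q) → S.Nonempty →
      ((1 - 5 * e) * (X / φ)) * (S.card : ℝ) - 8 * X * P / Real.log X ^ 2 ≤ ∑ p ∈ S, f p) :
    (1 - 7 * e) * (((Ps W b P).card : ℝ) * (X / φ)) ≤ ∑ p ∈ Ps W b P, f p := by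
  have hX0 : 0 < X := by linarith
  have hP0 : 0 < P := lt_trans (by positivity) hc
  have hP1 : 1 < P := by
    have : 1 ≤ Real.log X ^ 13 := one_le_pow₀ hL1
    linarith
  have hθP : θ * Real.log X ^ 13 ≤ θ * P := mul_le_mul_of_nonneg_left hc.le hθ.le
  obtain ⟨q, hq00, hqJ, hqs, hq0, hqa, hqP, hqθ⟩ := QWM_q he he1 hP0 hθd
  have hblock : ∀ j < J, ((1 - 5 * e) * (X / φ)) *
      (((Ps W b P).filter (fun p : ℕ => q (j + 1) < p ∧ (p : ℝ) ≤ q j)).card : ℝ) -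
        8 * X * P / Real.log X ^ 2 ≤
      ∑ p ∈ (Ps W b P).filter (fun p : ℕ => q (j + 1) < p ∧ (p : ℝ) ≤ q j), f p := by
    intro j hj
    rcases ((Ps W b P).filter (fun p : ℕ => q (j + 1) < p ∧ (p : ℝ) ≤ q j)).eq_empty_or_nonempty with hemp | hne
    · rw [hemp]
      simp only [card_empty, CharP.cast_eq_zero, mul_zero, sum_empty]
      have hE0 : 0 ≤ 8 * X * P / Real.log X ^ 2 := by positivity
      linarith
    · exact hblk _ (q j) (q (j + 1)) (filter_subset _ _) (hqs j)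
        (f4a.trans (hθP.trans (hqθ (j + 1) hj))) (hqP j) (f4.trans (hθP.trans (hqθ j hj.le)))
        (fun p hp => (mem_filter.1 hp).2) hne
  have htel := QWM_tel (Ps W b P) f q hqa ((1 - 5 * e) * (X / φ))
    (8 * X * P / Real.log X ^ 2) (fun p hp => by rw [hq00]; exact (hPs p hp).2) J hblock
  have hlogP : 0 < Real.log P := Real.log_pos hP1
  have hlogP2 : Real.log P ≤ 0.0001 * Real.log X := by
    have := Real.log_le_log hP0 hPX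
    rwa [Real.log_rpow hX0] at this
  have hPl : P / Real.log P ≤ 32 * φ * ((Ps W b P).card : ℝ) := by
    rw [div_le_iff₀ (by positivity)] at hT
    rw [div_le_iff₀ hlogP]
    linarith
  have hT0 : (0 : ℝ) ≤ ((Ps W b P).card : ℝ) := Nat.cast_nonneg _
  have hsm := QWM_few ((Ps W b P).filter (fun p : ℕ => ¬ q J < p)) hP0 hP1 hθ hJ hφ hT0 hc f4a f4b hPl
    (fun p hp => by
      obtain ⟨s1, s2⟩ := mem_filter.1 hp
      refine ⟨(hPs p s1).1, ?_⟩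
      rw [← hqJ]
      exact not_lt.1 s2)
  have hsplit : (((Ps W b P).filter (fun p : ℕ => q J < p)).card : ℝ) +
      (((Ps W b P).filter (fun p : ℕ => ¬ q J < p)).card : ℝ) = ((Ps W b P).card : ℝ) := by
    have := Finset.card_filter_add_card_filter_not (s := Ps W b P) (fun p : ℕ => q J < p)
    exact_mod_cast this
  have hsub : ∑ p ∈ (Ps W b P).filter (fun p : ℕ => q J < p), f p ≤ ∑ p ∈ Ps W b P, f p :=
    Finset.sum_le_sum_of_subset_of_nonneg (filter_subset _ _) fun p _ _ => hf0 p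
  exact QWM_fin hX4 hφ he he1 hL1 hT0 hlogP hlogP2 hPl f6 htel hsub hsm hsplit

/-- small `P` -/
private theorem QWM_small (h3 : QWN_stmt) {W a₀ b r N₀ : ℕ} {X P φ e : ℝ} (f : ℕ → ℝ)
    (hWpos : 0 < W) (hφ : 0 < φ) (he : 0 < e) (he1 : e ≤ 1 / 14) (hX4 : 4 ≤ X) (heX : 2 ≤ e * X)
    (hN₀X : (N₀ : ℝ) ≤ X) (hL1 : 1 ≤ Real.log X)
    (f3 : 2 * X ^ (0.5001 : ℝ) * (1.0002 * Real.log X) ≤ e * (X / φ)) (hPX : P ≤ X ^ (0.0001 : ℝ))
    (hr1 : r + 1 ≡ a₀ * b ^ 2 [MOD W])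
    (hN : ∀ N : ℕ, N₀ ≤ N → ∀ p : ℕ, p.Prime → ¬ p ∣ W → (p : ℝ) ≤ Real.log N ^ 13 →
        (1 - e) * (N / (φ * (p : ℝ) ^ 2)) ≤
        ∑ n ∈ (Ioc 0 N).filter (fun n : ℕ => n ≡ r [MOD W] ∧ n ≡ p ^ 2 - 1 [MOD p ^ 2]),
          ArithmeticFunction.vonMangoldt n)
    (hf : ∀ p : ℕ, f p = 1.0002 * Real.log X *
      (((As W a₀ X).filter (fun a : ℕ => (a * p ^ 2 - 1).Prime)).card : ℝ))
    (hPs : ∀ p ∈ Ps W b P, p.Prime ∧ p ≡ b [MOD W] ∧ p.Coprime W ∧ ¬ p ∣ W ∧ (p : ℝ) ≤ P)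
    (hc : P ≤ Real.log X ^ 13) :
    (1 - 7 * e) * (((Ps W b P).card : ℝ) * (X / φ)) ≤ ∑ p ∈ Ps W b P, f p := by
  have hX0 : 0 < X := by linarith
  have hone : ∀ p ∈ Ps W b P, (1 - 7 * e) * (X / φ) ≤ f p := by
    intro p hp
    obtain ⟨p1, p2, p3, p4, p5⟩ := hPs p hp
    obtain ⟨n1, n2, n3, n4, n5, n6⟩ := QWM_N hX4 hPX p1.two_le p5
    have k2 : (p : ℝ) ≤ Real.log ((⌊X⌋₊ * p ^ 2 - 1 : ℕ) : ℝ) ^ 13 := by
      refine p5.trans (hc.trans ?_)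
      exact pow_le_pow_left₀ (by linarith) (Real.log_le_log hX0 n2) 13
    have k3 := hN _ (by exact_mod_cast hN₀X.trans n2) p p1 p4 k2
    have k4 := QWM_up h3 hWpos hX4 hPX f3 p1 p2 p3 p5 hr1 p1.two_le le_rfl
    rw [← hf p] at k4
    exact QWM_sp hφ he he1 hX4 heX (by exact_mod_cast p1.pos) n3 k3 k4
  calc (1 - 7 * e) * (((Ps W b P).card : ℝ) * (X / φ)) = (Ps W b P).card • ((1 - 7 * e) * (X / φ)) := by
        rw [nsmul_eq_mul]; ring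
    _ ≤ _ := Finset.card_nsmul_le_sum _ _ _ hone

private noncomputable def QWM_f (W a₀ : ℕ) (X : ℝ) (p : ℕ) : ℝ := 1.0002 * Real.log X *
  (((As W a₀ X).filter (fun a : ℕ => (a * p ^ 2 - 1).Prime)).card : ℝ)

private theorem QWM_f_eq (W a₀ : ℕ) (X : ℝ) (p : ℕ) : QWM_f W a₀ X p = 1.0002 * Real.log X *
    (((As W a₀ X).filter (fun a : ℕ => (a * p ^ 2 - 1).Prime)).card : ℝ) := rfl

private theorem QWM_main (h1 : QWS_stmt) (h2 : QWL_stmt) (h3 : QWN_stmt) (w : ℕ) (e : ℝ)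
    (he : 0 < e) (he1 : e ≤ 1 / 14) : ∃ X₀ : ℝ, ∀ X P : ℝ, X₀ ≤ X → Rg2 1 X P →
    ∀ a₀ b : ℕ, b.Coprime (primorial w) → (∀ l : ℕ, l.Prime → l ≤ w → ¬ (a₀ * b ^ 2 ≡ 1 [MOD l])) →
    (1 - 7 * e) * (((Ps (primorial w) b P).card : ℝ) * (X / (Nat.totient (primorial w) : ℝ))) ≤
      ∑ p ∈ Ps (primorial w) b P, QWM_f (primorial w) a₀ X p := by
  have hWpos : 0 < primorial w := primorial_pos w
  obtain ⟨φ, hφd⟩ : ∃ φ : ℝ, φ = (Nat.totient (primorial w) : ℝ) := ⟨_, rfl⟩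
  have hφ : 0 < φ := by rw [hφd]; exact_mod_cast Nat.totient_pos.2 hWpos
  obtain ⟨N₀, hN₀⟩ := QWM_thr h1 h2 (primorial w) hWpos e he
  rw [← hφd] at hN₀ ⊢
  obtain ⟨P₀, hP₀⟩ := Ps_lower w
  rw [← hφd] at hP₀
  obtain ⟨J, hJ⟩ := exists_pow_lt_of_lt_one (show 0 < e / (448 * φ) by positivity) (show 1 - e < 1 by linarith)
  have he' : 0 < 1 - e := by linarith
  have hθ : 0 < (1 - e) ^ J := by positivity
  obtain ⟨X₀, hX₀⟩ := QWM_ev e φ ((1 - e) ^ J) N₀ (max P₀ 2) J he hφ hθ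
  refine ⟨X₀, fun X P hX hRg a₀ b hb hl => ?_⟩
  obtain ⟨⟨hX4, hN₀X, heX⟩, ⟨hL1, hLP⟩, f3, f4, f4a, f4b, f5, f6⟩ := hX₀ X hX
  obtain ⟨r, hrW, hr1, hrc⟩ := QWM_cls w a₀ b hl
  have hN := hN₀ r hrW hrc
  have hPs := QWM_Ps (P := P) hb
  have hf := QWM_f_eq (primorial w) a₀ X
  generalize QWM_f (primorial w) a₀ X = f at *
  have hf0 : ∀ p, 0 ≤ f p := by
    intro p
    rw [hf p]
    have hL0 : 0 < Real.log X := by linarith
    positivity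
  rcases le_or_gt P (Real.log X ^ 13) with hc | hc
  · exact QWM_small h3 f hWpos hφ he he1 hX4 heX hN₀X hL1 f3 hRg.2 hr1 (fun N h => (hN N h).1) hf hPs hc
  · have hT := hP₀ P (by
      have h5 : Real.log X ≤ Real.log X ^ 13 := le_self_pow₀ hL1 (by norm_num)
      exact (le_max_left _ _).trans (hLP.trans (h5.trans hc.le))) b hb
    refine QWM_large f hφ he he1 hθ rfl hJ hX4 hL1 f4 f4a f4b f6 hRg.2 hc
      (fun p hp => ⟨(hPs p hp).1, (hPs p hp).2.2.2.2⟩) hT hf0 ?_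
    intro S q qs hSP hqs hq4 hqP hq10 hSm hS0
    exact QWM_blk1 h3 S f hWpos hφ he he1 hX4 heX hN₀X hL1 f3 f5 hRg.2 hr1 (fun N h => (hN N h).2) hf
      (fun p hp => hPs p (hSP hp)) hqs hq4 hqP hq10 hSm hS0

/-- **QWM** -/
theorem QWM (h1 : QWS_stmt) (h2 : QWL_stmt) (h3 : QWN_stmt) : QWM_stmt := by
  intro w eps hw heps
  obtain ⟨e, he⟩ : ∃ e : ℝ, e = min eps (1 / 2) / 7 := ⟨_, rfl⟩
  have he0 : 0 < e := by rw [he]; positivity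
  have he1 : e ≤ 1 / 14 := by
    rw [he]
    have := min_le_right eps (1 / 2)
    linarith
  have he2 : 7 * e ≤ eps := by
    rw [he]
    have := min_le_left eps (1 / 2)
    linarith
  obtain ⟨X₀, hX₀⟩ := QWM_main h1 h2 h3 w e he0 he1
  refine ⟨max X₀ 3, fun X P hX hRg a₀ b hb hl => ?_⟩
  have hX3 : 3 ≤ X := (le_max_right _ _).trans hX
  have h4 := hX₀ X P ((le_max_left _ _).trans hX) hRg a₀ b hb hl
  simp only [QWM_f_eq, ← Finset.mul_sum] at h4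
  have hL : 0 < Real.log X := Real.log_pos (by linarith)
  have hφ : (0 : ℝ) < (Nat.totient (primorial w) : ℝ) := by
    exact_mod_cast Nat.totient_pos.2 (primorial_pos w)
  have h5 : (1 - eps) * (((Ps (primorial w) b P).card : ℝ) * X /
      ((Nat.totient (primorial w) : ℝ) * (1.0002 * Real.log X))) ≤
      (1 - 7 * e) * (((Ps (primorial w) b P).card : ℝ) * X /
      ((Nat.totient (primorial w) : ℝ) * (1.0002 * Real.log X))) :=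
    mul_le_mul_of_nonneg_right (by linarith) (by positivity)
  refine h5.trans ?_
  have h6 : (1 - 7 * e) * (((Ps (primorial w) b P).card : ℝ) * X /
      ((Nat.totient (primorial w) : ℝ) * (1.0002 * Real.log X))) =
      ((1 - 7 * e) * (((Ps (primorial w) b P).card : ℝ) * (X / (Nat.totient (primorial w) : ℝ)))) /
        (1.0002 * Real.log X) := by
    field_simp
  rw [h6, div_le_iff₀ (by positivity)]
  linarith

end Pool.Agent.PT
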